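import Mathlib
import Pool.Agent.Work.MP_91103f_lv.Interface

/-!
# Block POLY: the region of a bigon or a triangle with two descending sides
-/

namespace Pool.TriLev.helper81

open Pool.Agent.Work.MP_91103f_co

open Classical

noncomputable section

/-- the closed polygon -/
def px {V : Type} (s m : ℕ) (A B : ℕ → V) (t : ℕ) : V :=
  if t ≤ s then A t else if t < m then B (2 * s - t) else A 0

theorem px_left {V : Type} {s m : ℕ} {A B : ℕ → V} {t : ℕ} (h : t ≤ s) : px s m A B t = A t := by
  unfold px
  rw [if_pos h]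

theorem px_right {V : Type} {s m : ℕ} {A B : ℕ → V} {t : ℕ} (h : s < t) (h2 : t < m) :
    px s m A B t = B (2 * s - t) := by
  unfold px
  rw [if_neg (by omega), if_pos h2]

theorem px_end {V : Type} {s m : ℕ} {A B : ℕ → V} {t : ℕ} (h : s < t) (h2 : m ≤ t) :
    px s m A B t = A 0 := by
  unfold px
  rw [if_neg (by omega), if_neg (by omega)]

theorem sum_ico_refl (f : ℕ → ℕ) (s : ℕ) (hs : 1 ≤ s) :
    ∑ t ∈ Finset.Ico (s + 1) (2 * s), f (2 * s - t) = ∑ t ∈ Finset.Ico 1 s, f t := by
  apply Finset.sum_nbij' (fun t => 2 * s - t) (fun t => 2 * s - t)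
  · intro t ht
    rw [Finset.mem_Ico] at ht ⊢
    omega
  · intro t ht
    rw [Finset.mem_Ico] at ht ⊢
    omega
  · intro t ht
    rw [Finset.mem_Ico] at ht
    show 2 * s - (2 * s - t) = t
    omega
  · intro t ht
    rw [Finset.mem_Ico] at ht
    show 2 * s - (2 * s - t) = t
    omega
  · intro t _
    rfl

theorem stmt_POLY : Stmt_POLY := by
  intro V G F hT r s e A B hAB hA hB hne he
  have hs : 1 ≤ s := by rcases he with h | h <;> omega
  have hm3 : 3 ≤ 2 * s + e := by rcases he with h | h <;> omega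
  -- levels
  have lA : ∀ t ≤ s, G.dist r (A t) + t = G.dist r (A 0) := by
    intro t
    induction t with
    | zero => intro _; rfl
    | succ t ih =>
      intro ht
      have h1 := ih (by omega)
      have h2 := (hA t (by omega)).2
      omega
  have lB : ∀ t ≤ s, G.dist r (B t) + t = G.dist r (B 0) := by
    intro t
    induction t with
    | zero => intro _; rfl
    | succ t ih =>
      intro ht
      have h1 := ih (by omega)
      have h2 := (hB t (by omega)).2
      omega
  have l0 : G.dist r (A 0) = G.dist r (B 0) := by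
    have h1 := lA s le_rfl
    have h2 := lB s le_rfl
    rw [hAB] at h1
    omega
  -- the polygon
  set m := 2 * s + e with hm
  set x : ℕ → V := px s m A B with hxdef
  have hsm : s < m := by omega
  have hx : x m = x 0 := by
    rw [hxdef, px_end hsm le_rfl, px_left (Nat.zero_le _)]
  have e2 : e ≤ 1 := by rcases he with h | h <;> omega
  have hinj' : ∀ i j, i ≤ s → s < j → j < m → A i ≠ B (2 * s - j) := by
    intro i j hi hj hjm h
    have h1 := lA i hi
    have h2 := lB (2 * s - j) (by omega)
    rw [h] at h1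
    have h3 : 2 * s - j = i := by omega
    rw [h3] at h
    rcases Nat.eq_zero_or_pos i with rfl | hi0
    · rcases he with ⟨h4, -, -⟩ | ⟨-, h4, -⟩
      · omega
      · exact h4.ne h
    · exact hne i hi0 (by omega) h
  have hinj : ∀ i j, i < m → j < m → x i = x j → i = j := by
    intro i j hi hj h
    rcases Nat.lt_or_ge s i with h1 | h1 <;> rcases Nat.lt_or_ge s j with h2 | h2
    · rw [hxdef, px_right h1 hi, px_right h2 hj] at h
      have h3 := lB (2 * s - i) (by omega)
      have h4 := lB (2 * s - j) (by omega)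
      rw [h] at h3
      omega
    · rw [hxdef, px_right h1 hi, px_left h2] at h
      exact absurd h.symm (hinj' j i h2 h1 hi)
    · rw [hxdef, px_left h1, px_right h2 hj] at h
      exact absurd h (hinj' i j h1 h2 hj)
    · rw [hxdef, px_left h1, px_left h2] at h
      have h3 := lA i h1
      have h4 := lA j h2
      rw [h] at h3
      omega
  -- the value of x at the end and neighbours
  have xB : ∀ t, t < s → 1 ≤ t ∨ e = 1 → x (2 * s - t) = B t := by
    intro t ht h
    rw [hxdef, px_right (by omega) (by omega)]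
    congr 1
    omega
  have xs : x s = B s := by rw [hxdef, px_left le_rfl, hAB]
  have xB' : ∀ t, t ≤ s → 1 ≤ t ∨ e = 1 → x (2 * s - t) = B t := by
    intro t ht h
    rcases Nat.lt_or_ge t s with h1 | h1
    · exact xB t h1 h
    · have : t = s := by omega
      subst this
      rw [show 2 * t - t = t by omega]
      exact xs
  have xB0 : e = 0 → x (2 * s) = B 0 := by
    intro h0
    rw [hxdef, px_end (by omega) (by omega)]
    rcases he with ⟨-, h4, -⟩ | ⟨h4, -, -⟩
    · exact h4
    · omega
  have xB'' : ∀ t, t ≤ s → x (2 * s - t) = B t := by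
    intro t ht
    rcases Nat.eq_zero_or_pos t with rfl | h0
    · rcases Nat.eq_zero_or_pos e with h1 | h1
      · exact xB0 h1
      · exact xB' 0 ht (Or.inr (by omega))
    · exact xB' t ht (Or.inl h0)
  have xA : ∀ t, t ≤ s → x t = A t := fun t ht => px_left ht
  have hadj : ∀ t < m, G.Adj (x t) (x (t + 1)) := by
    intro t ht
    rcases Nat.lt_or_ge t s with h1 | h1
    · rw [xA t h1.le, xA (t + 1) h1]
      exact (hA t h1).1.symm
    · rcases Nat.lt_or_ge t (2 * s) with h2 | h2
      · have h3 := xB'' (2 * s - t) (by omega)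
        have h4 := xB'' (2 * s - t - 1) (by omega)
        rw [show 2 * s - (2 * s - t) = t by omega] at h3
        rw [show 2 * s - (2 * s - t - 1) = t + 1 by omega] at h4
        rw [h3, h4]
        have h5 := (hB (2 * s - t - 1) (by omega)).1
        rw [show 2 * s - t - 1 + 1 = 2 * s - t by omega] at h5
        exact h5
      · have h3 : t = 2 * s - 0 := by omega
        have h4 : e = 1 := by omega
        have h5 : t + 1 = m := by omega
        rw [h5, hx, h3, xB'' 0 (by omega), xA 0 (by omega)]
        rcases he with ⟨h6, -, -⟩ | ⟨-, h6, -⟩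
        · omega
        · exact h6.symm
  have hC : ∀ e ∈ cyc m x, e ∈ G.edgeSet := by
    intro e he
    obtain ⟨t, ht, rfl⟩ := Finset.mem_image.1 he
    exact hadj t (Finset.mem_range.1 ht)
  obtain ⟨S, hS, hb⟩ := hT.hom (cyc m x) hC (by
    intro v
    have : {e : Sym2 V | e ∈ cyc m x ∧ v ∈ e}.ncard =
        ((cyc m x).filter (fun e => v ∈ e)).card := by
      rw [← Set.ncard_coe_finset]
      congr 1
      ext e
      simp
    rw [this]
    exact cyc_even hm3 hx hinj v)
  simp only [ct_eq_ncard] at hb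
  have hne' : (cyc m x).Nonempty := by
    rw [← Finset.card_pos, card_cyc hm3 hx hinj]
    omega
  have hgb := hT.gauss_bonnet hC (cyc_evMin hm3 hx hinj) hne' (mem_verts hx)
    (by rw [card_verts hm3 hx hinj, card_cyc hm3 hx hinj]) hS hb
  rw [card_verts hm3 hx hinj, Finset.sum_image (by
    intro i hi j hj h
    rw [Finset.coe_range, Set.mem_Iio] at hi hj
    exact hinj i j hi hj h)] at hgb
  -- the sum
  have hsumA : ∑ t ∈ Finset.range (s + 1), av S (x t) =
      av S (A 0) + ∑ t ∈ Finset.Ico 1 s, av S (A t) + av S (A s) := by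
    have h1 : ∑ t ∈ Finset.range (s + 1), av S (x t) =
        ∑ t ∈ Finset.range (s + 1), av S (A t) := by
      refine Finset.sum_congr rfl fun t ht => ?_
      rw [Finset.mem_range] at ht
      rw [xA t (by omega)]
    rw [h1, Finset.sum_range_succ, Finset.range_eq_Ico, Finset.sum_eq_sum_Ico_succ_bot (by omega)]
  have hsumB : ∑ t ∈ Finset.Ico (s + 1) (2 * s), av S (x t) =
      ∑ t ∈ Finset.Ico 1 s, av S (B t) := by
    rw [← sum_ico_refl (fun t => av S (B t)) s hs]
    refine Finset.sum_congr rfl fun t ht => ?_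
    rw [Finset.mem_Ico] at ht
    have h3 := xB'' (2 * s - t) (by omega)
    rw [show 2 * s - (2 * s - t) = t by omega] at h3
    rw [h3]
  have hsplit : ∑ t ∈ Finset.range m, av S (x t) =
      ∑ t ∈ Finset.range (s + 1), av S (x t) + ∑ t ∈ Finset.Ico (s + 1) m, av S (x t) := by
    rw [Finset.range_eq_Ico, Finset.range_eq_Ico,
      Finset.sum_Ico_consecutive _ (by omega) (by omega)]
  have hZA : ∑ t ∈ Finset.Ico 1 s, (3 - (av S (A t) : ℤ)) =
      3 * ((s : ℤ) - 1) - ((∑ t ∈ Finset.Ico 1 s, av S (A t) : ℕ) : ℤ) := by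
    rw [Finset.sum_sub_distrib, Finset.sum_const, Nat.card_Ico, nsmul_eq_mul, Nat.cast_sum,
      Nat.cast_sub hs]
    push_cast
    ring
  have hZB : ∑ t ∈ Finset.Ico 1 s, (3 - (av S (B t) : ℤ)) =
      3 * ((s : ℤ) - 1) - ((∑ t ∈ Finset.Ico 1 s, av S (B t) : ℕ) : ℤ) := by
    rw [Finset.sum_sub_distrib, Finset.sum_const, Nat.card_Ico, nsmul_eq_mul, Nat.cast_sum,
      Nat.cast_sub hs]
    push_cast
    ring
  refine ⟨S, hS, ?_, ?_, ?_, ?_, ?_⟩
  · intro t h1 h2 c hc
    have hc' : s(A t, c) ∈ G.edgeSet := hc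
    have h3 := mem_cyc_succ hm3 hx hinj (t := t - 1) (by omega) (c := c)
    rw [show t - 1 + 1 = t by omega, show t - 1 + 2 = t + 1 by omega, xA t h2.le,
      xA (t - 1) (by omega), xA (t + 1) h2] at h3
    rw [← hb _ hc', h3]
  · intro t h1 h2 c hc
    have hc' : s(B t, c) ∈ G.edgeSet := hc
    have h3 := mem_cyc_succ hm3 hx hinj (t := 2 * s - (t + 1)) (by omega) (c := c)
    rw [show 2 * s - (t + 1) + 1 = 2 * s - t by omega,
      show 2 * s - (t + 1) + 2 = 2 * s - (t - 1) by omega, xB'' t h2.le,
      xB'' (t + 1) (by omega), xB'' (t - 1) (by omega)] at h3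
    rw [← hb _ hc', h3]
    tauto
  · intro c hc
    have hc' : s(A s, c) ∈ G.edgeSet := hc
    have h3 := mem_cyc_succ hm3 hx hinj (t := s - 1) (by omega) (c := c)
    rw [show s - 1 + 1 = s by omega, show s - 1 + 2 = 2 * s - (s - 1) by omega, xA s le_rfl,
      xA (s - 1) (by omega), xB'' (s - 1) (by omega)] at h3
    rw [← hb _ hc', h3]
  · intro h0
    refine ⟨?_, ?_⟩
    · intro c hc
      have hc' : s(A 0, c) ∈ G.edgeSet := hc
      have h3 := mem_cyc_zero hm3 hx hinj (c := c)
      rw [show m - 1 = 2 * s - 1 by omega, xA 0 (by omega), xA 1 hs, xB'' 1 (by omega)] at h3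
      rw [← hb _ hc', h3]
    · rw [hZA, hZB]
      rw [hsplit, hsumA, show m = 2 * s by omega, hsumB] at hgb
      omega
  · intro h1
    refine ⟨?_, ?_, ?_⟩
    · intro c hc
      have hc' : s(A 0, c) ∈ G.edgeSet := hc
      have h3 := mem_cyc_zero hm3 hx hinj (c := c)
      rw [show m - 1 = 2 * s - 0 by omega, xA 0 (by omega), xA 1 hs, xB'' 0 (by omega)] at h3
      rw [← hb _ hc', h3]
    · intro c hc
      have hc' : s(B 0, c) ∈ G.edgeSet := hc
      have h3 := mem_cyc_succ hm3 hx hinj (t := 2 * s - 1) (by omega) (c := c)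
      rw [show 2 * s - 1 + 1 = 2 * s - 0 by omega, show 2 * s - 1 + 2 = m by omega, hx,
        xB'' 0 (by omega), xB'' 1 (by omega), xA 0 (by omega)] at h3
      rw [← hb _ hc', h3]
    · rw [hZA, hZB]
      have h2 : ∑ t ∈ Finset.Ico (s + 1) m, av S (x t) =
          ∑ t ∈ Finset.Ico 1 s, av S (B t) + av S (B 0) := by
        rw [show m = 2 * s + 1 by omega, Finset.sum_Ico_succ_top (by omega), hsumB]
        have := xB'' 0 (by omega)
        rw [show 2 * s - 0 = 2 * s by omega] at this
        rw [this]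
      rw [hsplit, hsumA, h2] at hgb
      omega

end

end Pool.TriLev.helper81
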