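import Mathlib
import Pool.Agent.Work.MP_91103f_lv.Interface

/-!
# Block SIDE: the turning along a descending side
-/

namespace Pool.TriLev.helper81

open Pool.Agent.Work.MP_91103f_co

open Classical

noncomputable section

theorem lev_adj {V : Type} {G : SimpleGraph V} (hG : G.Connected) (r : V) {a b : V}
    (h : G.Adj a b) : G.dist r b ≤ G.dist r a + 1 := by
  have h1 := hG.dist_triangle (u := r) (v := a) (w := b)
  have h2 := SimpleGraph.dist_eq_one_iff_adj.2 h
  omega

/-- the face of `S` at an odd edge is unique -/
theorem uniq_face {V : Type} {G : SimpleGraph V} {F : Set (Finset V)} (hT : Tri V G F)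
    {S : Finset (Finset V)} (hS : ∀ f ∈ S, f ∈ F) {u v y y' : V} (h : T3 F u v y)
    (h' : T3 F u v y') (hy : ({u, v, y} : Finset V) ∈ S) (hy' : ({u, v, y'} : Finset V) ∈ S)
    (hodd : Odd (ct S s(u, v))) : y = y' := by
  have h2 := hT.ct_le_two hS (e := s(u, v)) (hT.adj h)
  have h1 : ct S s(u, v) = 1 := by
    obtain ⟨k, hk⟩ := hodd
    omega
  unfold ct at h1
  obtain ⟨f, hf⟩ := Finset.card_eq_one.1 h1
  have e1 : ({u, v, y} : Finset V) ∈ S.filter (fun f => s(u, v) ∈ f.sym2) := by
    rw [Finset.mem_filter, mem_sym2_mk]
    exact ⟨hy, by simp, by simp⟩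
  have e2 : ({u, v, y'} : Finset V) ∈ S.filter (fun f => s(u, v) ∈ f.sym2) := by
    rw [Finset.mem_filter, mem_sym2_mk]
    exact ⟨hy', by simp, by simp⟩
  rw [hf, Finset.mem_singleton] at e1 e2
  have e3 : y ∈ ({u, v, y'} : Finset V) := by
    rw [e2, ← e1]
    simp
  simp only [Finset.mem_insert, Finset.mem_singleton] at e3
  rcases e3 with e3 | e3 | e3
  · exact absurd e3.symm h.1.2.2
  · exact absurd e3.symm h.1.2.1
  · exact e3

theorem stmt_SIDE (hFAN : Stmt_FAN) : Stmt_SIDE := by
  intro V G F hT r S s d hS hs hd h0 hb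
  have hadj : ∀ t < s, G.Adj (d t) (d (t + 1)) := fun t ht => (hd t ht).1.symm
  have hodd : ∀ t < s, Odd (ct S s(d t, d (t + 1))) := by
    intro t ht
    rcases Nat.eq_zero_or_pos t with rfl | h1
    · exact h0
    · exact (hb t h1 ht _ (hadj t ht)).2 (Or.inr rfl)
  have key : ∀ n k, k + n + 1 = s →
      ∑ t ∈ Finset.Ico (k + 1) s, (3 - (av S (d t) : ℤ)) ≤ 1 ∧
      ((∃ y, T3 F (d k) (d (k + 1)) y ∧ ({d k, d (k + 1), y} : Finset V) ∈ S ∧
        G.dist r y = G.dist r (d k)) →
        ∑ t ∈ Finset.Ico (k + 1) s, (3 - (av S (d t) : ℤ)) ≤ 0) := by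
    intro n
    induction n with
    | zero =>
      intro k hk
      have : Finset.Ico (k + 1) s = ∅ := by
        rw [Finset.Ico_eq_empty_iff]
        omega
      rw [this, Finset.sum_empty]
      exact ⟨by omega, fun _ => le_rfl⟩
    | succ n ih =>
      intro k hk
      obtain ⟨ih1, ih2⟩ := ih (k + 1) (by omega)
      have hlk := (hd k (by omega)).2
      have hlk1 := (hd (k + 1) (by omega)).2
      have hpq : d k ≠ d (k + 2) := by
        intro h
        rw [show k + 1 + 1 = k + 2 by ring] at hlk1
        rw [h] at hlk
        omega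
      obtain ⟨g, hn1, hg0, hgn, hg⟩ := hFAN hT S (d (k + 1)) (d k) (d (k + 2)) hS
        (hadj k (by omega)).symm (hadj (k + 1) (by omega)) hpq
        (fun c hc => hb (k + 1) (by omega) (by omega) c hc)
      set N := av S (d (k + 1)) with hN
      have hsum : ∑ t ∈ Finset.Ico (k + 1) s, (3 - (av S (d t) : ℤ)) =
          (3 - (N : ℤ)) + ∑ t ∈ Finset.Ico (k + 1 + 1) s, (3 - (av S (d t) : ℤ)) := by
        rw [Finset.sum_eq_sum_Ico_succ_bot (by omega)]
      rw [hsum]
      -- levels
      set L := G.dist r (d (k + 1)) with hL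
      have hlq : G.dist r (d (k + 2)) + 1 = L := hlk1.symm
      -- consecutive vertices of the fan are adjacent
      have hgadj : ∀ i < N, G.Adj (g i) (g (i + 1)) := fun i hi => hT.adj' (hg i hi).1.swap
      have hgL : ∀ i ≤ N, G.dist r (g i) ≤ L + 1 ∧ L ≤ G.dist r (g i) + 1 := by
        intro i hi
        have h1 : G.Adj (d (k + 1)) (g i) := by
          rcases Nat.eq_zero_or_pos i with rfl | h2
          · exact hT.adj (hg 0 (by omega)).1
          · have := hT.adj' (hg (i - 1) (by omega)).1
            rwa [show i - 1 + 1 = i by omega] at this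
        exact ⟨lev_adj hT.conn r h1, lev_adj hT.conn r h1.symm⟩
      -- the first face
      have hT1 : T3 F (d k) (d (k + 1)) (g 1) := by
        have := (hg 0 (by omega)).1
        rw [hg0] at this
        exact this.swap
      have hf1 : ({d k, d (k + 1), g 1} : Finset V) ∈ S := by
        have := (hg 0 (by omega)).2
        rw [hg0, zero_add] at this
        rw [show ({d k, d (k + 1), g 1} : Finset V) = {d (k + 1), d k, g 1} by
          ext; simp; tauto]
        exact this
      -- the last face
      have hT2 : T3 F (d (k + 1)) (d (k + 1 + 1)) (g (N - 1)) := by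
        have := (hg (N - 1) (by omega)).1
        rw [show N - 1 + 1 = N by omega, hgn] at this
        exact this.swap'
      have hf2 : ({d (k + 1), d (k + 1 + 1), g (N - 1)} : Finset V) ∈ S := by
        have := (hg (N - 1) (by omega)).2
        rw [show N - 1 + 1 = N by omega, hgn] at this
        rw [show ({d (k + 1), d (k + 1 + 1), g (N - 1)} : Finset V) =
          {d (k + 1), g (N - 1), d (k + 2)} by ext; simp; tauto]
        exact this
      have hP2 : G.dist r (g (N - 1)) = L →
          ∑ t ∈ Finset.Ico (k + 1 + 1) s, (3 - (av S (d t) : ℤ)) ≤ 0 :=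
        fun h => ih2 ⟨_, hT2, hf2, h⟩
      -- levels of g
      have l1 := lev_adj hT.conn r (hgadj 0 (by omega))
      rw [hg0, zero_add] at l1
      have l1' := lev_adj hT.conn r (hgadj 0 (by omega)).symm
      rw [hg0, zero_add] at l1'
      have l2 := lev_adj hT.conn r (hgadj (N - 1) (by omega))
      have l2' := lev_adj hT.conn r (hgadj (N - 1) (by omega)).symm
      rw [show N - 1 + 1 = N by omega, hgn] at l2 l2'
      have l3 := hgL 1 hn1
      have l4 := hgL (N - 1) (by omega)
      constructor
      · by_cases h3 : 3 ≤ N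
        · have : (3 : ℤ) ≤ N := by exact_mod_cast h3
          linarith
        · rcases (by omega : N = 1 ∨ N = 2) with h4 | h4
          · exfalso
            rw [h4, Nat.sub_self, hg0] at l2'
            omega
          · have h5 : G.dist r (g (N - 1)) = L := by
              rw [h4, show 2 - 1 = 1 by omega] at l2 l2' ⊢
              omega
            have h6 := hP2 h5
            rw [h4]
            push_cast
            linarith
      · rintro ⟨y, hy1, hy2, hy3⟩
        have hy4 : y = g 1 := uniq_face hT hS hy1 hT1 hy2 hf1 (hodd k (by omega))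
        rw [hy4] at hy3
        have h3 : 3 ≤ N := by
          by_contra h3
          rcases (by omega : N = 1 ∨ N = 2) with h4 | h4
          · rw [h4] at hgn
            rw [hgn] at hy3
            omega
          · rw [h4, show 2 - 1 = 1 by omega] at l2 l2'
            omega
        rcases Nat.eq_or_lt_of_le h3 with h4 | h4
        · have l5 := lev_adj hT.conn r (hgadj 1 (by omega))
          have l6 := lev_adj hT.conn r (hgadj 1 (by omega)).symm
          rw [show 1 + 1 = 2 by rfl] at l5 l6
          have h5 : G.dist r (g (N - 1)) = L := by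
            rw [← h4, show 3 - 1 = 2 by omega] at l2 l2' ⊢
            omega
          have h6 := hP2 h5
          rw [← h4]
          push_cast
          linarith
        · have : (4 : ℤ) ≤ N := by exact_mod_cast h4
          linarith
  have := key (s - 1) 0 (by omega)
  rw [zero_add] at this
  exact this

end

end Pool.TriLev.helper81
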